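import Pool.Agent.V1146.Kol.Abs2

/-!
The derivations of the field `K` of the rational functions in the variables `t_j`, `x_i` over the
field with two elements.
-/

open MvPolynomial

namespace Pool.Agent.V1146.Kol

section Setup

/-- the polynomial ring in all the variables -/
abbrev B2 (d : ℕ) : Type := MvPolynomial (ℕ ⊕ Fin d) (ZMod 2)

/-- the map which sends the variables `x_i` to zero -/
noncomputable def piB (d : ℕ) : B2 d →+* B2 d :=
  (aeval (fun v : ℕ ⊕ Fin d => Sum.elim (fun j => (X (Sum.inl j) : B2 d)) (fun _ => 0) v) :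
    B2 d →ₐ[ZMod 2] B2 d)

@[simp] lemma piB_inl (d j : ℕ) : piB d (X (Sum.inl j)) = X (Sum.inl j) := by simp [piB]

@[simp] lemma piB_inr (d : ℕ) (i : Fin d) : piB d (X (Sum.inr i)) = 0 := by simp [piB]

@[simp] lemma piB_C (d : ℕ) (c : ZMod 2) : piB d (C c) = C c := by
  simp [piB]

/-- the ideal of the variables `x_i` -/
noncomputable def pp (d : ℕ) : Ideal (B2 d) := RingHom.ker (piB d)

instance (d : ℕ) : (pp d).IsPrime := RingHom.ker_isPrime _

end Setup

section Der

variable {K : Type} [Field K]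

lemma mkDer (D : K →+ K) (hD : ∀ x y, D (x * y) = x * D y + y * D x) :
    ∃ D' : Derivation ℤ K K, ∀ x, D' x = D x :=
  ⟨Derivation.mk' D.toIntLinearMap hD, fun _ => rfl⟩

variable {d : ℕ} [CharP K 2] (bK : B2 d →+* K) (hinj : Function.Injective bK)
  (hfr : ∀ z : K, ∃ b s : B2 d, s ≠ 0 ∧ z * bK s = bK b)

include hinj hfr in
/-- induction principle for `K` -/
lemma K_induction {P : K → Prop} (h0 : P 0) (h1 : P 1) (hadd : ∀ x y, P x → P y → P (x + y))
    (hmul : ∀ x y, P x → P y → P (x * y)) (hinv : ∀ x, P x → P x⁻¹)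
    (hX : ∀ v, P (bK (X v))) (z : K) : P z := by
  have hb : ∀ b : B2 d, P (bK b) := by
    intro b
    induction b using MvPolynomial.induction_on with
    | C c =>
      have hc : c = 0 ∨ c = 1 := by revert c; decide
      rcases hc with rfl | rfl
      · rw [C_0, map_zero]; exact h0
      · rw [C_1, map_one]; exact h1
    | add p q hp hq => rw [map_add]; exact hadd _ _ hp hq
    | mul_X p v hp => rw [map_mul]; exact hmul _ _ hp (hX v)
  obtain ⟨b, s, hs, e⟩ := hfr z
  have hs0 : bK s ≠ 0 := by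
    intro h
    exact hs (hinj (by rw [h, map_zero]))
  have : z = bK b * (bK s)⁻¹ := by
    rw [← e, mul_assoc, mul_inv_cancel₀ hs0, mul_one]
  rw [this]
  exact hmul _ _ (hb b) (hinv _ (hb s))

include hinj hfr in
/-- derivations with given values on the variables -/
lemma exists_der (f : ℕ ⊕ Fin d → K) :
    ∃ D : Derivation ℤ K K, ∀ v, D (bK (X v)) = f v := by
  let i1 : Algebra (B2 d) K := bK.toAlgebra
  have hmap : ∀ b, algebraMap (B2 d) K b = bK b := fun _ => rfl
  have hfr : IsFractionRing (B2 d) K := by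
    refine ⟨?_, ?_, ?_⟩
    · rintro ⟨y, hy⟩
      apply IsUnit.mk0
      intro h
      exact nonZeroDivisors.ne_zero hy (hinj (by
        rw [map_zero]; exact h))
    · intro z
      obtain ⟨b, s, hs, e⟩ := hfr z
      exact ⟨(b, ⟨s, mem_nonZeroDivisors_of_ne_zero hs⟩), e⟩
    · intro x y hxy
      exact ⟨1, by rw [hinj hxy]⟩
  let fstR : TrivSqZeroExt K K →+* K := (TrivSqZeroExt.fstHom K K K).toRingHom
  have hfstR : ∀ z, fstR z = z.fst := fun _ => rfl
  let g : B2 d →+* TrivSqZeroExt K K :=
    eval₂Hom ((TrivSqZeroExt.inlHom K K).comp (bK.comp C))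
      (fun v => TrivSqZeroExt.inl (bK (X v)) + TrivSqZeroExt.inr (f v))
  have hgX : ∀ v, g (X v) = TrivSqZeroExt.inl (bK (X v)) + TrivSqZeroExt.inr (f v) := by
    intro v
    change eval₂Hom _ _ (X v) = _
    rw [coe_eval₂Hom, eval₂_X]
  have hgC : ∀ c, g (C c) = TrivSqZeroExt.inl (bK (C c)) := by
    intro c
    change eval₂Hom _ _ (C c) = _
    rw [coe_eval₂Hom, eval₂_C]
    rfl
  have hfst : ∀ b, (g b).fst = bK b := by
    intro b
    have h1 : fstR.comp g = bK := by
      apply MvPolynomial.ringHom_ext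
      · intro c
        rw [RingHom.comp_apply, hfstR, hgC, TrivSqZeroExt.fst_inl]
      · intro v
        rw [RingHom.comp_apply, hfstR, hgX]
        simp
    exact RingHom.congr_fun h1 b
  have hunit : ∀ y : nonZeroDivisors (B2 d), IsUnit (g y) := by
    intro y
    rw [TrivSqZeroExt.isUnit_iff_isUnit_fst, hfst]
    apply IsUnit.mk0
    intro h
    exact nonZeroDivisors.ne_zero y.2 (hinj (by rw [h, map_zero]))
  let ψ : K →+* TrivSqZeroExt K K := IsLocalization.lift hunit
  have hψ : ∀ b : B2 d, ψ (bK b) = g b := fun b => IsLocalization.lift_eq hunit b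
  have hψfst : ∀ z, (ψ z).fst = z := by
    intro z
    have h1 : fstR.comp ψ = RingHom.id _ := by
      apply IsLocalization.ringHom_ext (nonZeroDivisors (B2 d))
      apply RingHom.ext
      intro b
      change (ψ (bK b)).fst = bK b
      rw [hψ, hfst]
    exact RingHom.congr_fun h1 z
  let D0 : K →+ K :=
    { toFun := fun z => (ψ z).snd
      map_zero' := by rw [map_zero, TrivSqZeroExt.snd_zero]
      map_add' := by intro x y; rw [map_add, TrivSqZeroExt.snd_add] }
  obtain ⟨D, hD⟩ := mkDer D0 (by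
    intro x y
    change (ψ (x * y)).snd = x * (ψ y).snd + y * (ψ x).snd
    rw [map_mul, TrivSqZeroExt.snd_mul, hψfst, hψfst]
    simp only [smul_eq_mul, MulOpposite.smul_eq_mul_unop, MulOpposite.unop_op]
    ring)
  refine ⟨D, ?_⟩
  intro v
  rw [hD]
  change (ψ (bK (X v))).snd = f v
  rw [hψ, hgX]
  simp

end Der

end Pool.Agent.V1146.Kol
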