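import Pool.Agent.V1146.Kol.Loc

/-!
The local ring `A` is Noetherian of dimension `d`.
-/

open MvPolynomial

namespace Pool.Agent.V1146.Kol

section Noeth

variable {d : ℕ} {A : Type} [CommRing A] [IsDomain A] [Algebra (B2 d) A]
  [IsLocalization.AtPrime A (pp d)]

include d in
lemma A_noeth : IsNoetherianRing A := by
  -- the ring `𝔽_2[t]` and its fraction field
  let P0 := MvPolynomial ℕ (ZMod 2)
  let k := FractionRing P0
  let ι0 : P0 →+* A := (algebraMap (B2 d) A).comp (rename (R := ZMod 2) Sum.inl).toRingHom
  have hι0 : ∀ f, ι0 f = algebraMap (B2 d) A (rename Sum.inl f) := fun _ => rfl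
  have hpi : ∀ f : P0, piB d (rename Sum.inl f) = rename Sum.inl f := by
    intro f
    induction f using MvPolynomial.induction_on with
    | C c => rw [rename_C, piB_C]
    | add p q hp hq => rw [map_add, map_add, hp, hq]
    | mul_X p n hp => rw [map_mul, map_mul, hp, rename_X, piB_inl]
  have hunit : ∀ f : nonZeroDivisors P0, IsUnit (ι0 f) := by
    intro f
    rw [hι0]
    apply unit_of_not_mem
    rw [pp, RingHom.mem_ker, hpi]
    intro h
    exact nonZeroDivisors.ne_zero f.2 (rename_injective _ Sum.inl_injective (by rw [h, map_zero]))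
  let ιk : k →+* A := IsLocalization.lift hunit
  have hιk : ∀ f : P0, ιk (algebraMap P0 k f) = ι0 f := fun f => IsLocalization.lift_eq hunit f
  let β : MvPolynomial (Fin d) k →+* A :=
    eval₂Hom ιk (fun i => algebraMap (B2 d) A (X (Sum.inr i)))
  have hβ : ∀ b : B2 d, ∃ b', β b' = algebraMap (B2 d) A b := by
    intro b
    induction b using MvPolynomial.induction_on with
    | C c =>
      refine ⟨C (algebraMap P0 k (C c)), ?_⟩
      change eval₂Hom _ _ (C _) = _
      rw [coe_eval₂Hom, eval₂_C, hιk, hι0, rename_C]
    | add p q hp hq =>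
      obtain ⟨p', hp⟩ := hp
      obtain ⟨q', hq⟩ := hq
      exact ⟨p' + q', by rw [map_add, map_add, hp, hq]⟩
    | mul_X p v hp =>
      obtain ⟨p', hp⟩ := hp
      rcases v with n | i
      · refine ⟨p' * C (algebraMap P0 k (X n)), ?_⟩
        rw [map_mul, map_mul, hp]
        congr 1
        change eval₂Hom _ _ (C _) = _
        rw [coe_eval₂Hom, eval₂_C, hιk, hι0, rename_X]
      · refine ⟨p' * X i, ?_⟩
        rw [map_mul, map_mul, hp]
        congr 1
        change eval₂Hom _ _ (X _) = _
        rw [coe_eval₂Hom, eval₂_X]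
  have hmono : ∀ I J : Ideal A, I.comap β ≤ J.comap β → I ≤ J := by
    intro I J hIJ a ha
    obtain ⟨b, s, hs, e⟩ := exists_num (d := d) a
    obtain ⟨b', hb'⟩ := hβ b
    have h1 : b' ∈ I.comap β := by
      rw [Ideal.mem_comap, hb', ← e]
      exact Ideal.mul_mem_right _ _ ha
    have h2 : β b' ∈ J := hIJ h1
    rw [hb', ← e] at h2
    obtain ⟨v, hv⟩ := (unit_of_not_mem (A := A) hs).exists_right_inv
    have h3 := Ideal.mul_mem_right v J h2
    rwa [mul_assoc, hv, mul_one] at h3
  have hsm : StrictMono (fun I : Ideal A => I.comap β) := by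
    intro I J hIJ
    refine lt_of_le_of_ne (Ideal.comap_mono hIJ.le) ?_
    intro heq
    exact hIJ.not_ge (hmono J I heq.ge)
  have hk : IsNoetherianRing k := inferInstance
  have hB : IsNoetherianRing (MvPolynomial (Fin d) k) := inferInstance
  have hwf : WellFoundedGT (Ideal (MvPolynomial (Fin d) k)) := inferInstance
  have : WellFoundedGT (Ideal A) := hsm.wellFoundedGT
  exact isNoetherian_iff'.mpr this

end Noeth

section Dim

variable {d : ℕ}

/-- the map which sends the variables `x_i`, `i < n`, to zero -/
noncomputable def piN (d n : ℕ) : B2 d →+* B2 d :=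
  (aeval (fun v : ℕ ⊕ Fin d => Sum.elim (fun j => (X (Sum.inl j) : B2 d))
    (fun i : Fin d => if (i : ℕ) < n then 0 else X (Sum.inr i)) v) : B2 d →ₐ[ZMod 2] B2 d)

lemma piN_inl (n j : ℕ) : piN d n (X (Sum.inl j)) = X (Sum.inl j) := by simp [piN]

lemma piN_inr (n : ℕ) (i : Fin d) :
    piN d n (X (Sum.inr i)) = if (i : ℕ) < n then 0 else X (Sum.inr i) := by simp [piN]

lemma piN_C (n : ℕ) (c : ZMod 2) : piN d n (C c) = C c := by simp [piN]

lemma piN_comp (n : ℕ) : (piN d (n + 1)).comp (piN d n) = piN d (n + 1) := by
  apply MvPolynomial.ringHom_ext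
  · intro c
    rw [RingHom.comp_apply, piN_C, piN_C]
  · rintro (j | i)
    · rw [RingHom.comp_apply, piN_inl, piN_inl]
    · rw [RingHom.comp_apply, piN_inr]
      split_ifs with h
      · rw [map_zero, piN_inr, if_pos (by omega)]
      · rfl

lemma piN_d : piN d d = piB d := by
  apply MvPolynomial.ringHom_ext
  · intro c
    rw [piN_C, piB_C]
  · rintro (j | i)
    · rw [piN_inl, piB_inl]
    · rw [piN_inr, piB_inr, if_pos i.2]

lemma height_piN (n : ℕ) (hn : n ≤ d) : (n : ℕ∞) ≤ (RingHom.ker (piN d n)).height := by
  induction n with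
  | zero => simp
  | succ n ih =>
    have h1 : (RingHom.ker (piN d n)).IsPrime := RingHom.ker_isPrime _
    have h2 : (RingHom.ker (piN d (n + 1))).IsPrime := RingHom.ker_isPrime _
    have hlt : RingHom.ker (piN d n) < RingHom.ker (piN d (n + 1)) := by
      refine lt_of_le_of_ne ?_ ?_
      · intro f hf
        rw [RingHom.mem_ker] at *
        rw [← piN_comp, RingHom.comp_apply, hf, map_zero]
      · intro heq
        have h3 : (X (Sum.inr ⟨n, by omega⟩) : B2 d) ∈ RingHom.ker (piN d (n + 1)) := by
          rw [RingHom.mem_ker, piN_inr, if_pos (by simp)]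
        rw [← heq, RingHom.mem_ker, piN_inr, if_neg (by simp)] at h3
        exact X_ne_zero _ h3
    have h3 := Ideal.height_add_one_le_of_lt_of_isPrime hlt
    calc ((n + 1 : ℕ) : ℕ∞) = (n : ℕ∞) + 1 := by push_cast; rfl
      _ ≤ (RingHom.ker (piN d n)).height + 1 := by gcongr; exact ih (by omega)
      _ ≤ _ := h3

lemma le_height_pp : (d : ℕ∞) ≤ (pp d).height := by
  have := height_piN (d := d) d le_rfl
  rwa [piN_d] at this

lemma pp_le : pp d ≤ Ideal.span (Set.range fun i : Fin d => (X (Sum.inr i) : B2 d)) := by
  have key : ∀ f : B2 d, f - piB d f ∈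
      Ideal.span (Set.range fun i : Fin d => (X (Sum.inr i) : B2 d)) := by
    intro f
    induction f using MvPolynomial.induction_on with
    | C c => rw [piB_C, sub_self]; exact Ideal.zero_mem _
    | add p q hp hq =>
      rw [map_add, add_sub_add_comm]
      exact Ideal.add_mem _ hp hq
    | mul_X p v hp =>
      rcases v with n | i
      · rw [map_mul, piB_inl, ← sub_mul]
        exact Ideal.mul_mem_right _ _ hp
      · rw [map_mul, piB_inr, mul_zero, sub_zero]
        exact Ideal.mul_mem_left _ _ (Ideal.subset_span ⟨i, rfl⟩)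
  intro f hf
  have h1 := key f
  rw [pp, RingHom.mem_ker] at hf
  rwa [hf, sub_zero] at h1

variable {A : Type} [CommRing A] [IsDomain A] [Algebra (B2 d) A]
  [IsLocalization.AtPrime A (pp d)]

lemma A_dim : ringKrullDim A = (d : WithBot ℕ∞) := by
  classical
  have hloc : IsLocalRing A := IsLocalization.AtPrime.isLocalRing A (pp d)
  have hnoeth : IsNoetherianRing A := A_noeth (d := d)
  have h1 : ringKrullDim A = (pp d).height := IsLocalization.AtPrime.ringKrullDim_eq_height (pp d) A
  apply le_antisymm
  · rw [← IsLocalRing.maximalIdeal_height_eq_ringKrullDim]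
    have h2 : IsLocalRing.maximalIdeal A ∈
        (Ideal.span (((Finset.univ : Finset (Fin d)).image
          fun i => algebraMap (B2 d) A (X (Sum.inr i)) : Finset A) : Set A)).minimalPrimes := by
      have h3 : IsLocalRing.maximalIdeal A = Ideal.span (((Finset.univ : Finset (Fin d)).image
          fun i => algebraMap (B2 d) A (X (Sum.inr i)) : Finset A) : Set A) := by
        apply le_antisymm
        · intro a ha
          obtain ⟨b, s, hs, e⟩ := exists_num (d := d) a
          have hb : b ∈ pp d := by
            rw [← IsLocalization.AtPrime.to_map_mem_maximal_iff A (pp d), ← e]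
            exact Ideal.mul_mem_right _ _ ha
          have h4 : algebraMap (B2 d) A b ∈ Ideal.span (((Finset.univ : Finset (Fin d)).image
              fun i => algebraMap (B2 d) A (X (Sum.inr i)) : Finset A) : Set A) := by
            have h5 := Ideal.mem_map_of_mem (algebraMap (B2 d) A) (pp_le hb)
            rw [Ideal.map_span] at h5
            convert h5 using 2
            ext x
            simp
          obtain ⟨v, hv⟩ := (unit_of_not_mem (A := A) hs).exists_right_inv
          rw [← e] at h4
          have h6 := Ideal.mul_mem_right v _ h4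
          rwa [mul_assoc, hv, mul_one] at h6
        · apply Ideal.span_le.mpr
          intro x hx
          simp only [Finset.coe_image, Finset.coe_univ, Set.image_univ, Set.mem_range] at hx
          obtain ⟨i, rfl⟩ := hx
          rw [SetLike.mem_coe, IsLocalization.AtPrime.to_map_mem_maximal_iff A (pp d)]
          rw [pp, RingHom.mem_ker, piB_inr]
      rw [← h3]
      rw [Ideal.minimalPrimes_eq_subsingleton_self]
      rfl
    have h7 := Ideal.height_le_card_of_mem_minimalPrimes_span_finset h2
    have h8 : (((Finset.univ : Finset (Fin d)).image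
          fun i => algebraMap (B2 d) A (X (Sum.inr i)) : Finset A).card : ℕ∞) ≤ (d : ℕ∞) := by
      have := Finset.card_image_le (s := (Finset.univ : Finset (Fin d)))
        (f := fun i => algebraMap (B2 d) A (X (Sum.inr i)))
      rw [Finset.card_univ, Fintype.card_fin] at this
      exact_mod_cast this
    exact WithBot.coe_le_coe.mpr (h7.trans h8)
  · rw [h1]
    exact WithBot.coe_le_coe.mpr le_height_pp

end Dim

end Pool.Agent.V1146.Kol
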