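import Pool.Agent.V1146.Kol.Rec2

/-!
The local ring `A = k[x_1, …, x_d]_{(x)}`, `k = 𝔽_2(t_0, t_1, …)`.
-/

open MvPolynomial

namespace Pool.Agent.V1146.Kol

section Loc

variable {d : ℕ} {A : Type} [CommRing A] [IsDomain A] [Algebra (B2 d) A]
  [IsLocalization.AtPrime A (pp d)]

include d in
lemma bA_injective : Function.Injective (algebraMap (B2 d) A) :=
  IsLocalization.injective _ (Ideal.primeCompl_le_nonZeroDivisors (pp d))

lemma exists_num (a : A) : ∃ (b s : B2 d), s ∉ pp d ∧
    a * algebraMap (B2 d) A s = algebraMap (B2 d) A b := by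
  obtain ⟨⟨b, s⟩, hbs⟩ := IsLocalization.surj (pp d).primeCompl a
  exact ⟨b, s, s.2, hbs⟩

lemma unit_of_not_mem {s : B2 d} (hs : s ∉ pp d) : IsUnit (algebraMap (B2 d) A s) :=
  IsLocalization.map_units A (⟨s, hs⟩ : (pp d).primeCompl)

/-- the variable `t_j` -/
noncomputable def tA (A : Type) [CommRing A] [Algebra (B2 d) A] (j : ℕ) : A :=
  algebraMap (B2 d) A (X (Sum.inl j))

lemma piB_pderiv (j : ℕ) (b : B2 d) :
    piB d (pderiv (Sum.inl j) b) = pderiv (Sum.inl j) (piB d b) := by
  induction b using MvPolynomial.induction_on with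
  | C c => rw [piB_C, pderiv_C, map_zero]
  | add p q hp hq => rw [map_add, map_add, map_add, map_add, hp, hq]
  | mul_X p v hp =>
    rw [Derivation.leibniz, map_add, smul_eq_mul, smul_eq_mul, map_mul, map_mul, map_mul, hp,
      Derivation.leibniz, smul_eq_mul, smul_eq_mul]
    rcases v with n | i
    · rw [piB_inl]
      congr 1
      congr 1
      by_cases h : n = j
      · subst h; rw [pderiv_X_self, map_one]
      · rw [pderiv_X_of_ne (by simpa using h), map_zero]
    · rw [piB_inr, pderiv_X_of_ne (by simp), map_zero]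
      simp

lemma pderiv_mem {j : ℕ} {b : B2 d} (hb : b ∈ pp d) : pderiv (Sum.inl j) b ∈ pp d := by
  rw [pp, RingHom.mem_ker] at *
  rw [piB_pderiv, hb, map_zero]

variable {K : Type} [Field K] [Algebra A K] [IsFractionRing A K] [CharP K 2]

/-- the embedding of the polynomial ring in `K` -/
noncomputable def bK (d : ℕ) (A K : Type) [CommRing A] [Field K] [Algebra (B2 d) A] [Algebra A K] :
    B2 d →+* K := (algebraMap A K).comp (algebraMap (B2 d) A)

lemma bK_injective : Function.Injective (bK d A K) :=
  (IsFractionRing.injective A K).comp bA_injective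

lemma exists_frac (z : K) : ∃ (b s : B2 d), s ≠ 0 ∧ z * bK d A K s = bK d A K b := by
  obtain ⟨⟨a, a'⟩, haa⟩ := IsLocalization.surj (nonZeroDivisors A) z
  obtain ⟨b, s, hs, hb⟩ := exists_num (d := d) a
  obtain ⟨b', s', hs', hb'⟩ := exists_num (d := d) (a' : A)
  have hs0 : s ≠ 0 := by rintro rfl; exact hs (Ideal.zero_mem _)
  have hs0' : s' ≠ 0 := by rintro rfl; exact hs' (Ideal.zero_mem _)
  have hA : (a' : A) ≠ 0 := nonZeroDivisors.ne_zero a'.2
  have hb0' : b' ≠ 0 := by
    rintro rfl
    rw [map_zero] at hb'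
    rcases mul_eq_zero.mp hb' with h | h
    · exact hA h
    · exact hs0' (bA_injective (A := A) (by rw [h, map_zero]))
  refine ⟨b * s', b' * s, mul_ne_zero hb0' hs0, ?_⟩
  have e1 := congrArg (algebraMap A K) hb
  have e2 := congrArg (algebraMap A K) hb'
  simp only [map_mul] at e1 e2 haa ⊢
  change algebraMap A K a * bK d A K s = bK d A K b at e1
  change algebraMap A K a' * bK d A K s' = bK d A K b' at e2
  rw [← e1, ← e2]
  linear_combination (bK d A K s' * bK d A K s) * haa

variable {P : ℕ → Derivation ℤ K K} (hP : IsPart (bK d A K) P)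

include hP in
lemma part_pderiv (j : ℕ) (b : B2 d) : P j (bK d A K b) = bK d A K (pderiv (Sum.inl j) b) := by
  induction b using MvPolynomial.induction_on with
  | C c =>
    have hc : c = 0 ∨ c = 1 := by revert c; decide
    rcases hc with rfl | rfl
    · rw [C_0, map_zero, map_zero, map_zero, map_zero]
    · rw [C_1, map_one, (P j).map_one_eq_zero, Derivation.map_one_eq_zero, map_zero]
  | add p q hp hq => rw [map_add, map_add, map_add, map_add, hp, hq]
  | mul_X p v hp =>
    rw [map_mul, (P j).leibniz, hp, hP, Derivation.leibniz, map_add, smul_eq_mul, smul_eq_mul,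
      smul_eq_mul, smul_eq_mul, map_mul, map_mul]
    congr 2
    split_ifs with h
    · subst h; rw [pderiv_X_self, map_one]
    · rw [pderiv_X_of_ne (by simpa using h), map_zero]

include hP in
/-- the formula for the derivative of a fraction -/
lemma part_frac (j : ℕ) {a : A} {b s : B2 d} (hs : s ∉ pp d)
    (h : a * algebraMap (B2 d) A s = algebraMap (B2 d) A b) :
    ∃ v : A, P j (algebraMap A K a) = algebraMap A K
      ((algebraMap (B2 d) A (pderiv (Sum.inl j) b) -
        a * algebraMap (B2 d) A (pderiv (Sum.inl j) s)) * v) := by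
  obtain ⟨v, hv⟩ := (unit_of_not_mem (A := A) hs).exists_right_inv
  refine ⟨v, ?_⟩
  have h1 := congrArg (fun z => P j (algebraMap A K z)) h
  simp only [map_mul, (P j).leibniz] at h1
  change _ = P j (bK d A K b) at h1
  have h2 : algebraMap A K (algebraMap (B2 d) A s) = bK d A K s := rfl
  rw [h2, part_pderiv hP, part_pderiv hP, smul_eq_mul, smul_eq_mul] at h1
  have h3 : bK d A K s * algebraMap A K v = 1 := by
    rw [← h2, ← map_mul, hv, map_one]
  simp only [map_mul, map_sub]
  change _ = (bK d A K (pderiv (Sum.inl j) b) -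
    algebraMap A K a * bK d A K (pderiv (Sum.inl j) s)) * algebraMap A K v
  linear_combination (algebraMap A K v) * h1 - (P j (algebraMap A K a)) * h3

include hP in
lemma part_A (j : ℕ) (a : A) : IsA A (P j (algebraMap A K a)) := by
  obtain ⟨b, s, hs, h⟩ := exists_num (d := d) a
  obtain ⟨v, hv⟩ := part_frac hP j hs h
  rw [hv]
  exact IsA.coe _

include hP in
lemma part_unit (a : A) (l : ℕ) (ha : P l (algebraMap A K a) = 0) :
    IsUnit (1 + a * tA (d := d) A l) := by
  have hloc : IsLocalRing A := IsLocalization.AtPrime.isLocalRing A (pp d)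
  by_contra hnu
  have hmem : 1 + a * tA (d := d) A l ∈ IsLocalRing.maximalIdeal A := hnu
  have key : ∀ y ∈ IsLocalRing.maximalIdeal A, ∃ y' ∈ IsLocalRing.maximalIdeal A,
      P l (algebraMap A K y) = algebraMap A K y' := by
    intro y hy
    obtain ⟨b, s, hs, h⟩ := exists_num (d := d) y
    obtain ⟨v, hv⟩ := part_frac hP l hs h
    refine ⟨_, ?_, hv⟩
    apply Ideal.mul_mem_right
    apply sub_mem
    · have hb : b ∈ pp d := by
        rw [← IsLocalization.AtPrime.to_map_mem_maximal_iff A (pp d), ← h]
        exact Ideal.mul_mem_right _ _ hy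
      exact (IsLocalization.AtPrime.to_map_mem_maximal_iff A (pp d) _).mpr (pderiv_mem hb)
    · exact Ideal.mul_mem_right _ _ hy
  obtain ⟨y', hy', e⟩ := key _ hmem
  have h1 : P l (algebraMap A K (tA (d := d) A l)) = 1 := by
    have := hP l (Sum.inl l)
    rw [if_pos rfl] at this
    exact this
  rw [map_add, map_add, map_one, (P l).map_one_eq_zero, map_mul, (P l).leibniz, ha, h1, smul_zero,
    add_zero, zero_add, smul_eq_mul, mul_one] at e
  have h2 : a = y' := IsFractionRing.injective A K e
  rw [← h2] at hy'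
  have h3 : (1 : A) ∈ IsLocalRing.maximalIdeal A := by
    have h4 := sub_mem hmem (Ideal.mul_mem_right (tA (d := d) A l) _ hy')
    rwa [add_sub_cancel_right] at h4
  exact (Ideal.ne_top_iff_one _).mp (IsLocalRing.maximalIdeal.isMaximal A).ne_top h3

end Loc

section Ring

variable {d : ℕ} {A : Type} [CommRing A] [IsDomain A] [Algebra (B2 d) A]
  [IsLocalization.AtPrime A (pp d)]

include d in
lemma A_countable : Countable A := by
  have h0 : Countable (B2 d) := by
    rw [← Cardinal.mk_le_aleph0_iff]
    refine MvPolynomial.cardinalMk_le_max.trans ?_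
    refine max_le (max_le ?_ ?_) le_rfl
    · exact Cardinal.mk_le_aleph0
    · exact Cardinal.mk_le_aleph0
  have h1 : Function.Surjective (fun x : B2 d × (pp d).primeCompl =>
      IsLocalization.mk' A x.1 x.2) := by
    intro z
    obtain ⟨⟨b, s⟩, h⟩ := IsLocalization.mk'_surjective (pp d).primeCompl z
    exact ⟨(b, s), h⟩
  exact h1.countable

include d in
lemma A_intClosed : IsIntegrallyClosed A :=
  isIntegrallyClosed_of_isLocalization A (pp d).primeCompl
    (Ideal.primeCompl_le_nonZeroDivisors (pp d))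

include d in
lemma A_primes (Q : Ideal A) (hQ : Q.IsPrime) (hQ0 : Q ≠ ⊥) : ∃ g ∈ Q, Prime g := by
  have h1 : (Q.comap (algebraMap (B2 d) A)).IsPrime := Ideal.comap_isPrime _ _
  have h2 : Q.comap (algebraMap (B2 d) A) ≠ ⊥ := by
    intro h
    apply hQ0
    rw [eq_bot_iff]
    intro a ha
    obtain ⟨b, s, hs, e⟩ := exists_num (d := d) a
    have h3 : b ∈ Q.comap (algebraMap (B2 d) A) := by
      rw [Ideal.mem_comap, ← e]
      exact Ideal.mul_mem_right _ _ ha
    rw [h] at h3
    have h4 : b = 0 := h3
    rw [h4, map_zero] at e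
    exact (mul_eq_zero.mp e).resolve_right (unit_of_not_mem (A := A) hs).ne_zero
  obtain ⟨g, hg, hgp⟩ := h1.exists_mem_prime_of_ne_bot h2
  refine ⟨algebraMap (B2 d) A g, hg, ?_⟩
  have hspan : (Ideal.span {g}).IsPrime := (Ideal.span_singleton_prime hgp.ne_zero).mpr hgp
  have hdisj : Disjoint ((pp d).primeCompl : Set (B2 d)) (Ideal.span {g} : Set (B2 d)) := by
    rw [Set.disjoint_left]
    intro s hs hs'
    have h5 : algebraMap (B2 d) A s ∈ Q := by
      have : s ∈ Q.comap (algebraMap (B2 d) A) :=
        (Ideal.span_singleton_le_iff_mem _).mpr hg hs'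
      exact this
    exact hQ.ne_top (Ideal.eq_top_of_isUnit_mem _ h5 (unit_of_not_mem (A := A) hs))
  have h6 := IsLocalization.isPrime_of_isPrime_disjoint (pp d).primeCompl A _ hspan hdisj
  rw [Ideal.map_span, Set.image_singleton] at h6
  exact (Ideal.span_singleton_prime (by
    intro h
    exact hgp.ne_zero (bA_injective (A := A) (by rw [h, map_zero])))).mp h6

end Ring

end Pool.Agent.V1146.Kol
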