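import Pool.Agent.V1146.Kol.Dim

/-!
The existence of the derivation.
-/

open MvPolynomial

namespace Pool.Agent.V1146.Kol

section Main

variable {d : ℕ} {A : Type} [CommRing A] [IsDomain A] [Algebra (B2 d) A]
  [IsLocalization.AtPrime A (pp d)] {K : Type} [Field K] [Algebra A K] [IsFractionRing A K]
  [CharP K 2]

include d in
theorem exists_all : ∃ (δ : Derivation ℤ K K) (t u c : ℕ → A), Dat δ t u c := by
  have hinj : Function.Injective (bK d A K) := bK_injective
  have hfr : ∀ z : K, ∃ b s : B2 d, s ≠ 0 ∧ z * bK d A K s = bK d A K b := exists_frac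
  obtain ⟨P, hP⟩ := exists_part (bK d A K) hinj hfr
  have hcount : Countable A := A_countable (d := d)
  obtain ⟨γ, h1, h2, h3⟩ := exists_enum (A := A)
    (fun i a => ∀ l > i, P l (algebraMap A K a) = 0)
    (fun i a h l hl => h l (by omega)) (fun a => by
      obtain ⟨N, hN⟩ := part_fin (bK d A K) hinj hfr hP (algebraMap A K a)
      exact ⟨N, fun l hl => hN l (by omega)⟩)
  obtain ⟨c, hc⟩ : ∃ c, c = cK P (fun j => algebraMap A K (tA (d := d) A j))
    (fun j => algebraMap A K (γ j)) := ⟨_, rfl⟩
  obtain ⟨D, hD⟩ := exists_der (bK d A K) hinj hfr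
    (fun v => Sum.elim (fun j => (c j)⁻¹) (fun _ => 0) v)
  have hγ0 : ∀ i, γ i ≠ 0 := by
    intro i
    rcases h1 i with h | h
    · rw [h]; exact one_ne_zero
    · exact h.1.ne_zero
  have hγ : ∀ i, ∀ l > i, P l (algebraMap A K (γ i)) = 0 := by
    intro i l hl
    rcases h1 i with h | h
    · rw [h, map_one, (P l).map_one_eq_zero]
    · exact h.2 l hl
  obtain ⟨u, c', hdat⟩ := exists_dat (P := P) (t := tA (d := d) A) (D := D) (γ := γ)
    (part_comm (bK d A K) hinj hfr hP) (part_sq (bK d A K) hinj hfr hP)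
    (delta_formula (bK d A K) hinj hfr hP D (fun i => hD (Sum.inr i)))
    (part_fin (bK d A K) hinj hfr hP)
    (fun j => by rw [← hc]; exact hD (Sum.inl j))
    (fun l j hlj => by
      have := hP l (Sum.inl j)
      rw [if_neg (fun h => hlj (Sum.inl_injective h).symm)] at this
      exact this)
    (part_A hP) (part_unit hP) hγ0 hγ
    (fun i => (h1 i).imp id (fun h => h.1)) h2 h3 (A_primes (d := d))
  exact ⟨D, tA (d := d) A, u, c', hdat⟩

end Main

section Final

theorem final_gen {A K : Type} [CommRing A] [IsDomain A] [Field K] [Algebra A K]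
    [IsFractionRing A K] [CharP K 2] [IsNoetherianRing A] [IsIntegrallyClosed A]
    {δ : Derivation ℤ K K} {t u c : ℕ → A} (h : Dat δ t u c) :
    ∃ (R : Type) (_ : CommRing R) (_ : IsDomain R) (_ : Algebra R K)
    (_ : IsFractionRing R K), IsNoetherianRing R ∧ ringKrullDim R = ringKrullDim A ∧
      (∀ x : K, x ^ 2 ∈ (algebraMap R K).range → x ^ 3 ∈ (algebraMap R K).range →
        x ∈ (algebraMap R K).range) ∧
      ∀ P : Ideal R, P.IsPrime → P.height = 1 →
        ∃ m : (integralClosure R K) ⧸ LinearMap.range (Algebra.linearMap R (integralClosure R K)),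
          ∀ r : R, r ∈ P ↔ r • m = 0 :=
  ⟨RK (A := A) δ, inferInstance, inferInstance, inferInstance, h.isFrac, h.noeth_R, dim_eq,
    h.seminormal, h.assoc⟩

variable (d : ℕ)

instance locDomain : IsDomain (Localization.AtPrime (pp d)) :=
  IsLocalization.isDomain_localization (Ideal.primeCompl_le_nonZeroDivisors _)

/-- the final form -/
theorem final : ∃ (R K : Type) (_ : CommRing R) (_ : IsDomain R) (_ : Field K) (_ : Algebra R K)
    (_ : IsFractionRing R K), IsNoetherianRing R ∧ ringKrullDim R = (d : WithBot ℕ∞) ∧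
      (∀ x : K, x ^ 2 ∈ (algebraMap R K).range → x ^ 3 ∈ (algebraMap R K).range →
        x ∈ (algebraMap R K).range) ∧
      ∀ P : Ideal R, P.IsPrime → P.height = 1 →
        ∃ m : (integralClosure R K) ⧸ LinearMap.range (Algebra.linearMap R (integralClosure R K)),
          ∀ r : R, r ∈ P ↔ r • m = 0 := by
  obtain ⟨A, i1, i2, i3, i4⟩ : ∃ (A : Type) (_ : CommRing A) (_ : IsDomain A)
      (_ : Algebra (B2 d) A), IsLocalization.AtPrime A (pp d) :=
    ⟨Localization.AtPrime (pp d), inferInstance, locDomain d, inferInstance, inferInstance⟩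
  obtain ⟨K, i5, i6, i7⟩ : ∃ (K : Type) (_ : Field K) (_ : Algebra A K), IsFractionRing A K :=
    ⟨FractionRing A, inferInstance, inferInstance, inferInstance⟩
  have hch : CharP K 2 := by
    have hb : Function.Injective ((algebraMap A K).comp (algebraMap (B2 d) A)) :=
      (IsFractionRing.injective A K).comp bA_injective
    exact (RingHom.charP_iff _ hb 2).mp inferInstance
  have hnoeth : IsNoetherianRing A := A_noeth (d := d)
  have hclosed : IsIntegrallyClosed A := A_intClosed (d := d)
  obtain ⟨δ, t, u, c, h⟩ := exists_all (d := d) (A := A) (K := K)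
  obtain ⟨R, j1, j2, j3, j4, j5, j6, j7, j8⟩ := final_gen h
  exact ⟨R, K, j1, j2, i5, j3, j4, j5, by rw [j6, A_dim (d := d)], j7, j8⟩

end Final

end Pool.Agent.V1146.Kol
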