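import Pool.Agent.V1146.Kol.Conc

/-!
The recursive construction of the derivation `δ`.
-/

open MvPolynomial

namespace Pool.Agent.V1146.Kol

section Enum

/-- enumeration of the primes up to associates -/
lemma exists_enum {A : Type} [CommMonoidWithZero A] [Countable A] (V : ℕ → A → Prop)
    (hV : ∀ i a, V i a → V (i + 1) a) (hex : ∀ a, ∃ i, V i a) :
    ∃ γ : ℕ → A, (∀ i, γ i = 1 ∨ (Prime (γ i) ∧ V i (γ i))) ∧
      (∀ i j, i ≠ j → Prime (γ i) → Prime (γ j) → ¬ Associated (γ i) (γ j)) ∧
      (∀ g, Prime g → ∃ i, Prime (γ i) ∧ Associated (γ i) g) := by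
  classical
  have hne : Nonempty A := ⟨0⟩
  obtain ⟨a, ha⟩ := exists_surjective_nat A
  have hVm : ∀ i j a, i ≤ j → V i a → V j a := by
    intro i j a hij h
    induction j with
    | zero =>
      have : i = 0 := by omega
      rwa [this] at h
    | succ j ih =>
      rcases Nat.lt_or_ge i (j + 1) with h1 | h1
      · exact hV _ _ (ih (by omega))
      · have : i = j + 1 := by omega
        rwa [← this]
  obtain ⟨e, he⟩ : ∃ e : ℕ → A, ∀ i, e i = a (Nat.unpair i).1 := ⟨_, fun _ => rfl⟩
  have he2 : ∀ b N, ∃ i ≥ N, e i = b := by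
    intro b N
    obtain ⟨n, rfl⟩ := ha b
    exact ⟨Nat.pair n N, Nat.right_le_pair n N, by rw [he, Nat.unpair_pair]⟩
  let good : ℕ → Prop := fun i => Prime (e i) ∧ V i (e i) ∧
    ∀ j < i, V j (e j) → ¬ Associated (e j) (e i)
  have hp1 : ¬ Prime (1 : A) := fun h => h.not_unit isUnit_one
  refine ⟨fun i => if good i then e i else 1, ?_, ?_, ?_⟩
  · intro i
    by_cases h : good i
    · right; simp only [if_pos h]; exact ⟨h.1, h.2.1⟩
    · left; simp only [if_neg h]
  · intro i j hij h1 h2 h3
    by_cases hi : good i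
    · by_cases hj : good j
      · simp only [if_pos hi, if_pos hj] at h3
        rcases Nat.lt_or_gt_of_ne hij with h | h
        · exact hj.2.2 i h hi.2.1 h3
        · exact hi.2.2 j h hj.2.1 h3.symm
      · simp only [if_neg hj] at h2
        exact hp1 h2
    · simp only [if_neg hi] at h1
      exact hp1 h1
  · intro g hg
    obtain ⟨N, hN⟩ := hex g
    obtain ⟨i, hi, hig⟩ := he2 g N
    have hexi : ∃ i, V i (e i) ∧ Associated (e i) g :=
      ⟨i, by rw [hig]; exact hVm _ _ _ hi hN, by rw [hig]⟩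
    obtain ⟨m, hm⟩ : ∃ m, m = Nat.find hexi := ⟨_, rfl⟩
    have hm1 : V m (e m) ∧ Associated (e m) g := by rw [hm]; exact Nat.find_spec hexi
    have hm2 : ∀ j < m, ¬ (V j (e j) ∧ Associated (e j) g) := by
      intro j hj h
      have := Nat.find_min' hexi h
      omega
    have hgood : good m := by
      refine ⟨hm1.2.symm.prime hg, hm1.1, ?_⟩
      intro j hj hVj has
      exact hm2 j hj ⟨hVj, has.trans hm1.2⟩
    refine ⟨m, ?_, ?_⟩
    · simp only [if_pos hgood]; exact hgood.1
    · simp only [if_pos hgood]; exact hm1.2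

end Enum

section Ders

variable {d : ℕ} {K : Type} [Field K] [CharP K 2] (bK : B2 d →+* K)
  (hinj : Function.Injective bK)
  (hfr : ∀ z : K, ∃ b s : B2 d, s ≠ 0 ∧ z * bK s = bK b)

/-- the values of the partial derivative `∂/∂t_j` -/
def IsPart (bK : B2 d →+* K) (P : ℕ → Derivation ℤ K K) : Prop :=
  ∀ j v, P j (bK (X v)) = if v = Sum.inl j then 1 else 0

include hinj hfr in
lemma exists_part : ∃ P : ℕ → Derivation ℤ K K, IsPart bK P := by
  choose P hP using fun j : ℕ => exists_der bK hinj hfr (fun v => if v = Sum.inl j then 1 else 0)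
  exact ⟨P, hP⟩

variable {P : ℕ → Derivation ℤ K K} (hP : IsPart bK P)

include hinj hfr hP in
lemma part_fin (z : K) : ∃ N, ∀ j ≥ N, P j z = 0 := by
  refine K_induction bK hinj hfr (P := fun z => ∃ N, ∀ j ≥ N, P j z = 0) ?_ ?_ ?_ ?_ ?_ ?_ z
  · exact ⟨0, fun j _ => map_zero _⟩
  · exact ⟨0, fun j _ => (P j).map_one_eq_zero⟩
  · rintro x y ⟨N, hN⟩ ⟨M, hM⟩
    exact ⟨max N M, fun j hj => by
      rw [map_add, hN j (le_trans (le_max_left _ _) hj), hM j (le_trans (le_max_right _ _) hj),
        add_zero]⟩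
  · rintro x y ⟨N, hN⟩ ⟨M, hM⟩
    exact ⟨max N M, fun j hj => by
      rw [(P j).leibniz, hN j (le_trans (le_max_left _ _) hj),
        hM j (le_trans (le_max_right _ _) hj), smul_zero, smul_zero, add_zero]⟩
  · rintro x ⟨N, hN⟩
    exact ⟨N, fun j hj => by rw [(P j).leibniz_inv, hN j hj, smul_zero]⟩
  · intro v
    rcases v with n | i
    · refine ⟨n + 1, fun j hj => ?_⟩
      rw [hP, if_neg]
      intro h
      have := Sum.inl_injective h
      omega
    · exact ⟨0, fun j _ => by rw [hP, if_neg (by simp)]⟩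

include hinj hfr in
lemma der_ext (D D' : Derivation ℤ K K) (h : ∀ v, D (bK (X v)) = D' (bK (X v))) (z : K) :
    D z = D' z := by
  refine K_induction bK hinj hfr (P := fun z => D z = D' z) ?_ ?_ ?_ ?_ ?_ h z
  · rw [map_zero, map_zero]
  · rw [D.map_one_eq_zero, D'.map_one_eq_zero]
  · intro x y hx hy; rw [map_add, map_add, hx, hy]
  · intro x y hx hy; rw [D.leibniz, D'.leibniz, hx, hy]
  · intro x hx; rw [D.leibniz_inv, D'.leibniz_inv, hx]

include hinj hfr hP in
lemma part_comm (i j : ℕ) (z : K) : P i (P j z) = P j (P i z) := by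
  have h := der_ext bK hinj hfr ⁅P i, P j⁆ 0 (by
    intro v
    rw [Derivation.commutator_apply, hP, hP, Derivation.zero_apply]
    have h0 : ∀ (l : ℕ) (c : Prop) [Decidable c], P l (if c then (1 : K) else 0) = 0 := by
      intro l c _
      split_ifs
      · exact (P l).map_one_eq_zero
      · exact map_zero _
    rw [h0, h0, sub_self]) z
  rw [Derivation.commutator_apply, Derivation.zero_apply, sub_eq_zero] at h
  exact h

include hinj hfr hP in
lemma part_sq (j : ℕ) (z : K) : P j (P j z) = 0 := by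
  refine K_induction bK hinj hfr (P := fun z => P j (P j z) = 0) ?_ ?_ ?_ ?_ ?_ ?_ z
  · rw [map_zero, map_zero]
  · rw [(P j).map_one_eq_zero, map_zero]
  · intro x y hx hy; rw [map_add, map_add, hx, hy, add_zero]
  · intro x y hx hy
    rw [(P j).leibniz, map_add, smul_eq_mul, smul_eq_mul, (P j).leibniz, (P j).leibniz, hx, hy]
    simp only [smul_eq_mul, mul_zero, zero_add]
    rw [mul_comm, ← two_mul]
    have : (2 : K) = 0 := CharTwo.two_eq_zero
    rw [this, zero_mul]
  · intro x hx
    rw [(P j).leibniz_inv, smul_eq_mul, (P j).leibniz, hx, smul_zero, zero_add, smul_eq_mul,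
      map_neg, delta_sq, neg_zero, mul_zero]
  · intro v
    rw [hP]
    split_ifs
    · exact (P j).map_one_eq_zero
    · exact map_zero _

include hinj hfr hP in
/-- the formula for a derivation which kills the variables `x_i` -/
lemma delta_formula (D : Derivation ℤ K K) (hD : ∀ i : Fin d, D (bK (X (Sum.inr i))) = 0)
    (z : K) (N : ℕ) (hN : ∀ j ≥ N, P j z = 0) :
    D z = ∑ j ∈ Finset.range N, P j z * D (bK (X (Sum.inl j))) := by
  have key : ∃ M, ∀ n ≥ M, D z = ∑ j ∈ Finset.range n, P j z * D (bK (X (Sum.inl j))) := by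
    refine K_induction bK hinj hfr (P := fun z => ∃ M, ∀ n ≥ M,
      D z = ∑ j ∈ Finset.range n, P j z * D (bK (X (Sum.inl j)))) ?_ ?_ ?_ ?_ ?_ ?_ z
    · exact ⟨0, fun n _ => by simp⟩
    · refine ⟨0, fun n _ => ?_⟩
      rw [D.map_one_eq_zero, Finset.sum_eq_zero]
      intro j _
      rw [(P j).map_one_eq_zero, zero_mul]
    · rintro x y ⟨N, hN⟩ ⟨M, hM⟩
      refine ⟨max N M, fun n hn => ?_⟩
      rw [map_add, hN n (le_trans (le_max_left _ _) hn), hM n (le_trans (le_max_right _ _) hn),
        ← Finset.sum_add_distrib]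
      apply Finset.sum_congr rfl
      intro j _
      rw [map_add]; ring
    · rintro x y ⟨N, hN⟩ ⟨M, hM⟩
      refine ⟨max N M, fun n hn => ?_⟩
      rw [D.leibniz, hN n (le_trans (le_max_left _ _) hn), hM n (le_trans (le_max_right _ _) hn),
        smul_eq_mul, smul_eq_mul, Finset.mul_sum, Finset.mul_sum, ← Finset.sum_add_distrib]
      apply Finset.sum_congr rfl
      intro j _
      rw [(P j).leibniz, smul_eq_mul, smul_eq_mul]; ring
    · rintro x ⟨N, hN⟩
      refine ⟨N, fun n hn => ?_⟩
      rw [D.leibniz_inv, hN n hn, smul_eq_mul, Finset.mul_sum]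
      apply Finset.sum_congr rfl
      intro j _
      rw [(P j).leibniz_inv, smul_eq_mul]; ring
    · intro v
      rcases v with m | i
      · refine ⟨m + 1, fun n hn => ?_⟩
        rw [Finset.sum_eq_single m]
        · rw [hP, if_pos rfl, one_mul]
        · intro j _ hj
          rw [hP, if_neg, zero_mul]
          intro h
          exact hj (Sum.inl_injective h).symm
        · intro h
          exact absurd (Finset.mem_range.mpr (by omega)) h
      · refine ⟨0, fun n _ => ?_⟩
        rw [hD, Finset.sum_eq_zero]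
        intro j _
        rw [hP, if_neg (by simp), zero_mul]
  obtain ⟨M, hM⟩ := key
  rw [hM (max M N) (le_max_left _ _)]
  symm
  apply Finset.sum_subset
  · intro j hj
    rw [Finset.mem_range] at *
    exact lt_of_lt_of_le hj (le_max_right _ _)
  · intro j _ hj
    rw [Finset.mem_range, not_lt] at hj
    rw [hN j hj, zero_mul]

end Ders

end Pool.Agent.V1146.Kol
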